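import Mathlib
import Pool.Agent.H209R2.EHMain

set_option autoImplicit false

/-!
# At `t = 1` the operators `Θ_{a,b}(f_d)` are multiplication operators

The definitions (symmetric functions in plethystic form, `D_k`, `q_d`, `Q_{m,n}`, `Θ_{a,b}`, seeds,
specialisation at `t = 1`) are in `Pool/Agent/H209R2/EHDefs.lean`.

Proof. Call an operator `A` on `Λ` good if all iterated `M⁻¹ [ · , g]` of `A` with multiplication
operators preserve the lattice `L` of symmetric functions with coefficients regular at `t = 1`
(informally `A = ∑ M^j A_j` with `A_j` a differential operator of order at most `j`). The good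
operators form a ring that is closed under `M⁻¹ [ · , · ]` and contains the `D_k`, so it contains
all `Q_{m,n}`; and a good operator is multiplication by `A(1)` modulo `M L`. This gives the
identity whenever the `c_μ` are regular at `t = 1`. That a seed has regular coefficients is shown
by specialising further to `q = 1`: there `Q_{d,d}` becomes a nonzero multiple of the operator
with symbol `∮ z^{-N} exp(d φ(z))`, because the classical brackets of these symbols close
(Hamiltonian vector fields of the torus), and the functions `Q_{d,d}(1)` become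
`const · [z^{d(r+1)}] exp (- d ∑ p_k z^k / k)`, which are algebraically independent.
-/

namespace Pool.Agent.Results.MP_478849_co.OperatorsAtT1

open Pool.Agent.H209R2.EH

/-- sanity check: in the normalisation `r = 0`, `σ = 1`, `τ = -1` one has `Q_{1,k} = (-1)^k D_k` -/
theorem Q_one (k : ℕ) : Q 0 1 (-1) 1 k = ((-1 : KK) ^ k) • D k := by
  induction k with
  | zero =>
    rw [Q]
    simp
  | succ k ih =>
    rw [Q]
    have h1 : Nat.gcd (0 + 1) (k + 1) = 1 := Nat.gcd_one_left _
    simp only [h1, zero_add, Nat.div_one, splitK_one, splitL_one, Nat.sub_zero,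
      Nat.add_sub_cancel, Q01]
    rw [ih, D_eq_W, D_eq_W]
    have h2 := br_W_p1 1 (k : ℤ)
    unfold br at h2
    refine LinearMap.ext fun x => ?_
    have h3 := congrArg (fun A => A x) h2
    simp only [Nat.cast_one, one_smul] at h3
    have h4 : W 1 ((k + 1 : ℕ) : ℤ) x = W 1 ((k : ℤ) + 1) x := by
      push_cast
      rfl
    rw [LinearMap.smul_apply, LinearMap.smul_apply, h4, ← h3]
    simp only [LinearMap.smul_apply, LinearMap.sub_apply, Module.End.mul_apply, map_smul,
      mulop_apply, smul_sub, smul_smul, mul_smul_comm]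
    simp only [Units.val_neg, Units.val_one, Int.cast_neg, Int.cast_one]
    congr 1
    · congr 1
      ring
    · congr 1
      ring

/-- For every normalisation `(r, σ, τ)` of the operators, every `d`, every
`f_d = ∑_{μ ⊢ d} c_μ q_μ` that is a seed (or has coefficients `c_μ` regular at `t = 1`), all coprime
`a, b ≥ 1` and every symmetric function `g` over `ℚ(q)`: `Θ_{a,b}(f_d)(g)` and
`f_d^{(a,b)} = Θ_{a,b}(f_d)(1)` have coefficients regular at `t = 1`, and at `t = 1`
`Θ_{a,b}(f_d)(g) = f_d^{(a,b)} · g`. -/
theorem result (r : ℕ) (σ τ : ℤˣ) (d : ℕ) (c : d.Partition → KK)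
    (hc : IsSeed r σ τ c ∨ ∀ μ, RegAt (1 : RatFunc ℚ) (c μ))
    (a b : ℕ) (_ha : 1 ≤ a) (_hb : 1 ≤ b) (_hab : Nat.Coprime a b)
    (g : MvPolynomial ℕ+ (RatFunc ℚ)) :
    RegularT1 (Theta r σ τ a b c (MvPolynomial.map RatFunc.C g)) ∧
    RegularT1 (Theta r σ τ a b c 1) ∧
    atT1 (Theta r σ τ a b c (MvPolynomial.map RatFunc.C g)) =
      atT1 (Theta r σ τ a b c 1) * g :=
  main r σ τ c hc a b g

end Pool.Agent.Results.MP_478849_co.OperatorsAtT1
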